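import Mathlib
import Pool.Agent.Q80.RR

open Polynomial Filter Topology Q80.RR

namespace Pool.Agent.Results.MP_5f9057_an.DistinctFamily

noncomputable section

/-- The polynomial is zero or all its complex zeros are real. -/
def OnlyRealZeros (p : ℝ[X]) : Prop := p = 0 ∨ ∀ z : ℂ, aeval z p = 0 → z.im = 0

/-- A simple set of polynomials: the `k`-th member has degree exactly `k`. -/
def IsSimpleSet (q : ℕ → ℝ[X]) : Prop := ∀ k, (q k).degree = k

/-- The set of `q`-multiplier sequences. -/
def MS (q : ℕ → ℝ[X]) : Set (ℕ → ℝ) :=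
  {γ | ∀ (n : ℕ) (a : ℕ → ℝ), OnlyRealZeros (∑ k ∈ Finset.range (n + 1), C (a k) * q k) →
    OnlyRealZeros (∑ k ∈ Finset.range (n + 1), C (a k * γ k) * q k)}

/-- The classical multiplier sequences. -/
def ClassicalMS : Set (ℕ → ℝ) := MS fun k => X ^ k

/-- The basis `P_j = {1, 1+x, …, 1+x+⋯+x^j, x^{j+1}, x^{j+2}, …}`. -/
def P (j : ℕ) : ℕ → ℝ[X] := fun k => if k ≤ j then ∑ i ∈ Finset.range (k + 1), X ^ i else X ^ k

lemma simple_ne {q : ℕ → ℝ[X]} (hq : IsSimpleSet q) (k : ℕ) : q k ≠ 0 := by
  intro h
  have := hq k
  rw [h, degree_zero] at this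
  exact absurd this (by simp)

lemma simple_natDegree {q : ℕ → ℝ[X]} (hq : IsSimpleSet q) (k : ℕ) : (q k).natDegree = k :=
  natDegree_eq_of_degree_eq_some (hq k)

lemma simple_coeff {q : ℕ → ℝ[X]} (hq : IsSimpleSet q) (k : ℕ) : (q k).coeff k ≠ 0 := by
  have h := leadingCoeff_ne_zero.2 (simple_ne hq k)
  rwa [leadingCoeff, simple_natDegree hq] at h

lemma expansion {q : ℕ → ℝ[X]} (hq : IsSimpleSet q) (k : ℕ) : ∀ p : ℝ[X], p.natDegree ≤ k →
    ∃ b : ℕ → ℝ, (∀ i, k < i → b i = 0) ∧ p = ∑ i ∈ Finset.range (k + 1), C (b i) * q i := by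
  induction k with
  | zero =>
    intro p hp
    refine ⟨fun i => if i = 0 then p.coeff 0 / (q 0).coeff 0 else 0, ?_, ?_⟩
    · intro i hi; simp [show i ≠ 0 by omega]
    · have h1 := eq_C_of_natDegree_le_zero hp
      have h2 := eq_C_of_natDegree_eq_zero (simple_natDegree hq 0)
      have h3 := simple_coeff hq 0
      simp only [zero_add, Finset.range_one, Finset.sum_singleton, if_true]
      rw [h2, ← C_mul, coeff_C_zero, div_mul_cancel₀ _ h3]
      exact h1
  | succ k ih =>
    intro p hp
    set c := p.coeff (k + 1) / (q (k + 1)).coeff (k + 1) with hc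
    have hdeg : (p - C c * q (k + 1)).natDegree ≤ k := by
      rw [natDegree_le_iff_coeff_eq_zero]
      intro N hN
      rcases Nat.lt_or_ge (k + 1) N with h | h
      · rw [coeff_sub, coeff_C_mul, coeff_eq_zero_of_natDegree_lt (by omega),
          coeff_eq_zero_of_natDegree_lt (by rw [simple_natDegree hq]; omega)]
        simp
      · have : N = k + 1 := by omega
        subst this
        rw [coeff_sub, coeff_C_mul, hc, div_mul_cancel₀ _ (simple_coeff hq _), sub_self]
    obtain ⟨b, hb0, hb⟩ := ih _ hdeg
    refine ⟨fun i => if i = k + 1 then c else b i, ?_, ?_⟩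
    · intro i hi
      simp only [show i ≠ k + 1 by omega, if_false]
      exact hb0 i (by omega)
    · rw [Finset.sum_range_succ]
      simp only [if_true]
      have : ∑ i ∈ Finset.range (k + 1), C (if i = k + 1 then c else b i) * q i =
          ∑ i ∈ Finset.range (k + 1), C (b i) * q i := by
        apply Finset.sum_congr rfl
        intro i hi
        have := Finset.mem_range.1 hi
        rw [if_neg (by omega)]
      rw [this, ← hb]
      ring

/-- Every `q`-multiplier sequence is classical. -/
theorem ms_subset_classical {q : ℕ → ℝ[X]} (hq : IsSimpleSet q) : MS q ⊆ ClassicalMS := by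
  intro γ hγ n a ha
  -- expansions of the monomials
  have hexp := fun k : ℕ => expansion hq k (X ^ k) (by simp)
  choose b hb0 hb using hexp
  have hb' : ∀ k ≤ n, (X ^ k : ℝ[X]) = ∑ i ∈ Finset.range (n + 1), C (b k i) * q i := by
    intro k hk
    rw [hb k]
    conv_lhs => rw [← hb k]
    rw [hb k]
    apply Finset.sum_subset
    · intro i hi
      rw [Finset.mem_range] at hi ⊢; omega
    · intro i _ hi
      rw [Finset.mem_range] at hi
      rw [hb0 k i (by omega)]; simp
  set R : ℕ → ℝ[X] := fun k => ∑ i ∈ Finset.range (k + 1), C (b k i * γ i) * q i with hR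
  have hRdeg : ∀ k, (R k).natDegree ≤ k := by
    intro k
    apply natDegree_sum_le_of_forall_le
    intro i hi
    have := Finset.mem_range.1 hi
    refine (natDegree_C_mul_le _ _).trans ?_
    rw [simple_natDegree hq]; omega
  have hRcoeff : ∀ k, (R k).coeff k = γ k := by
    intro k
    have h1 : (X ^ k : ℝ[X]).coeff k = 1 := by simp
    rw [hb k, finsetSum_coeff, Finset.sum_range_succ, Finset.sum_eq_zero] at h1
    · rw [hR]
      simp only
      rw [finsetSum_coeff, Finset.sum_range_succ, Finset.sum_eq_zero]
      · rw [coeff_C_mul] at h1 ⊢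
        rw [zero_add] at h1 ⊢
        calc b k k * γ k * (q k).coeff k = (b k k * (q k).coeff k) * γ k := by ring
          _ = γ k := by rw [h1, one_mul]
      · intro i hi
        have := Finset.mem_range.1 hi
        rw [coeff_C_mul, coeff_eq_zero_of_natDegree_lt (by rw [simple_natDegree hq]; omega),
          mul_zero]
    · intro i hi
      have := Finset.mem_range.1 hi
      rw [coeff_C_mul, coeff_eq_zero_of_natDegree_lt (by rw [simple_natDegree hq]; omega),
        mul_zero]
  have hR' : ∀ k ≤ n, R k = ∑ i ∈ Finset.range (n + 1), C (b k i * γ i) * q i := by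
    intro k hk
    apply Finset.sum_subset
    · intro i hi
      rw [Finset.mem_range] at hi ⊢; omega
    · intro i _ hi
      rw [Finset.mem_range] at hi
      rw [hb0 k i (by omega)]; simp
  set f : ℝ[X] := ∑ k ∈ Finset.range (n + 1), C (a k) * X ^ k with hf
  -- the scaled images
  set t : ℕ → ℝ := fun m => 1 / ((m : ℝ) + 1) with ht
  have htpos : ∀ m, 0 < t m := fun m => by simp only [ht]; positivity
  have htlim : Tendsto t atTop (𝓝 0) := tendsto_one_div_add_atTop_nhds_zero_nat
  set T : ℕ → ℝ[X] := fun m => ∑ k ∈ Finset.range (n + 1), C (a k * t m ^ k) * R k with hT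
  have hTreal : ∀ m, OnlyRealZeros (T m) := by
    intro m
    have h1 := hγ n (fun i => ∑ k ∈ Finset.range (n + 1), a k * t m ^ k * b k i) ?_
    · convert h1 using 1
      rw [hT]
      simp only
      have : ∀ k ∈ Finset.range (n + 1), C (a k * t m ^ k) * R k =
          ∑ i ∈ Finset.range (n + 1), C (a k * t m ^ k * b k i * γ i) * q i := by
        intro k hk
        rw [hR' k (by have := Finset.mem_range.1 hk; omega), Finset.mul_sum]
        apply Finset.sum_congr rfl
        intro i _
        simp only [C_mul]; ring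
      rw [Finset.sum_congr rfl this, Finset.sum_comm]
      apply Finset.sum_congr rfl
      intro i _
      rw [← Finset.sum_mul, ← map_sum, Finset.sum_mul]
    · have e : ∑ i ∈ Finset.range (n + 1),
          C (∑ k ∈ Finset.range (n + 1), a k * t m ^ k * b k i) * q i = f.comp (C (t m) * X) := by
        rw [hf, Polynomial.sum_comp]
        have : ∀ k ∈ Finset.range (n + 1), (C (a k) * X ^ k : ℝ[X]).comp (C (t m) * X) =
            ∑ i ∈ Finset.range (n + 1), C (a k * t m ^ k * b k i) * q i := by
          intro k hk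
          rw [mul_comp, C_comp, pow_comp, X_comp, mul_pow,
            hb' k (by have := Finset.mem_range.1 hk; omega), Finset.mul_sum, Finset.mul_sum]
          apply Finset.sum_congr rfl
          intro i _
          simp only [C_mul, C_pow]; ring
        rw [Finset.sum_congr rfl this, Finset.sum_comm]
        apply Finset.sum_congr rfl
        intro i _
        rw [← Finset.sum_mul, ← map_sum]
      rw [e]
      rcases ha with h | h
      · left; rw [h]; simp
      · right
        intro z hz
        rw [aeval_comp] at hz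
        have := h _ hz
        simp only [map_mul, aeval_C, aeval_X, Complex.coe_algebraMap, Complex.re_ofReal_mul,
          Complex.im_ofReal_mul] at this
        exact (mul_eq_zero.1 this).resolve_left (htpos m).ne'
  have hTdeg : ∀ m, (T m).natDegree ≤ n := by
    intro m
    apply natDegree_sum_le_of_forall_le
    intro k hk
    have := Finset.mem_range.1 hk
    exact (natDegree_C_mul_le _ _).trans ((hRdeg k).trans (by omega))
  refine onlyReal_of_tendsto (l := atTop) (P := fun m => (T m).comp (C (t m)⁻¹ * X)) n ?_ ?_ ?_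
  · refine Eventually.of_forall fun m => ?_
    refine natDegree_comp_le.trans ?_
    have : (C (t m)⁻¹ * X : ℝ[X]).natDegree ≤ 1 := (natDegree_C_mul_le _ _).trans natDegree_X_le
    calc (T m).natDegree * (C (t m)⁻¹ * X : ℝ[X]).natDegree ≤ n * 1 :=
          Nat.mul_le_mul (hTdeg m) this
      _ = n := mul_one n
  · refine Eventually.of_forall fun m => ?_
    rcases hTreal m with h | h
    · left; simp only [h, zero_comp]
    · right
      intro z hz
      rw [aeval_comp] at hz
      have := h _ hz
      simp only [map_mul, aeval_C, aeval_X, Complex.coe_algebraMap, Complex.im_ofReal_mul] at this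
      exact (mul_eq_zero.1 this).resolve_left (inv_ne_zero (htpos m).ne')
  · intro z
    have e1 : ∀ m, aeval z ((T m).comp (C (t m)⁻¹ * X)) =
        ∑ k ∈ Finset.range (n + 1), (a k : ℂ) *
          ∑ i ∈ Finset.range (k + 1), ((R k).coeff i : ℂ) * ((t m : ℂ) ^ (k - i) * z ^ i) := by
      intro m
      rw [aeval_comp, hT]
      simp only [map_sum, map_mul, aeval_C, aeval_X, Complex.coe_algebraMap, map_pow]
      apply Finset.sum_congr rfl
      intro k _
      rw [aeval_eq_sum_range' (Nat.lt_succ_of_le (hRdeg k)), mul_assoc]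
      congr 1
      rw [Finset.mul_sum]
      apply Finset.sum_congr rfl
      intro i hi
      have hik : i ≤ k := by have := Finset.mem_range.1 hi; omega
      have htm : (t m : ℂ) ≠ 0 := by exact_mod_cast (htpos m).ne'
      rw [Algebra.smul_def, Complex.coe_algebraMap, mul_pow]
      obtain ⟨d, rfl⟩ := Nat.exists_eq_add_of_le hik
      rw [Nat.add_sub_cancel_left, Complex.ofReal_inv, inv_pow, pow_add]
      field_simp
    have e2 : aeval z (∑ k ∈ Finset.range (n + 1), C (a k * γ k) * X ^ k) =
        ∑ k ∈ Finset.range (n + 1), (a k : ℂ) *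
          ∑ i ∈ Finset.range (k + 1), ((R k).coeff i : ℂ) * ((0 : ℂ) ^ (k - i) * z ^ i) := by
      simp only [map_sum, map_mul, aeval_C, aeval_X, Complex.coe_algebraMap, map_pow]
      apply Finset.sum_congr rfl
      intro k _
      rw [mul_assoc]
      congr 1
      rw [Finset.sum_range_succ, Finset.sum_eq_zero, hRcoeff]
      · simp
      · intro i hi
        have := Finset.mem_range.1 hi
        rw [zero_pow (by omega)]; simp
    simp only [e1]
    rw [e2]
    apply tendsto_finsetSum
    intro k _
    apply Tendsto.const_mul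
    apply tendsto_finsetSum
    intro i _
    apply Tendsto.const_mul
    apply Tendsto.mul_const
    apply Tendsto.pow
    have : Tendsto (fun m => ((t m : ℝ) : ℂ)) atTop (𝓝 ((0 : ℝ) : ℂ)) :=
      (Complex.continuous_ofReal.tendsto 0).comp htlim
    simpa using this


lemma P_simple (j : ℕ) : IsSimpleSet (P j) := by
  intro k
  unfold P
  split_ifs with h
  · rw [Finset.sum_range_succ]
    rw [degree_add_eq_right_of_degree_lt, degree_X_pow]
    rw [degree_X_pow]
    refine lt_of_le_of_lt (degree_sum_le _ _) ?_
    rw [Finset.sup_lt_iff (by exact WithBot.bot_lt_coe k)]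
    intro i hi
    rw [degree_X_pow]
    exact_mod_cast Finset.mem_range.1 hi
  · exact degree_X_pow k

/-- the indicator sequence of `j` -/
def ind (j : ℕ) : ℕ → ℝ := fun k => if k = j then 1 else 0

lemma ind_mem {i j : ℕ} (hij : i < j) : ind j ∈ MS (P i) := by
  intro n a _
  by_cases hj : j ≤ n
  · have e : ∑ k ∈ Finset.range (n + 1), C (a k * ind j k) * P i k = C (a j) * X ^ j := by
      rw [Finset.sum_eq_single j]
      · simp [ind, P, show ¬ j ≤ i by omega]
      · intro b _ hb
        simp [ind, hb]
      · intro h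
        exact absurd (Finset.mem_range.2 (by omega)) h
    rw [e]
    by_cases ha : a j = 0
    · left; simp [ha]
    · right
      intro z hz
      simp only [map_mul, aeval_C, map_pow, aeval_X, Complex.coe_algebraMap, mul_eq_zero,
        Complex.ofReal_eq_zero, ha, false_or] at hz
      have := (pow_eq_zero_iff (by omega : j ≠ 0)).1 hz
      rw [this]; simp
  · left
    apply Finset.sum_eq_zero
    intro k hk
    have := Finset.mem_range.1 hk
    simp [ind, show k ≠ j by omega]

/-- an explicit nonreal zero of `1 + x + ⋯ + x^j` for `j ≥ 2` -/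
lemma geom_nonreal {j : ℕ} (hj : 2 ≤ j) :
    ¬ OnlyRealZeros (∑ i ∈ Finset.range (j + 1), X ^ i : ℝ[X]) := by
  rintro (h | h)
  · have := congrArg (fun p : ℝ[X] => p.eval 1) h
    simp only [eval_finsetSum, eval_pow, eval_X, one_pow, Finset.sum_const, Finset.card_range,
      nsmul_eq_mul, mul_one, eval_zero] at this
    have h2 : ((j + 1 : ℕ) : ℝ) ≠ 0 := by positivity
    exact h2 this
  · set ζ : ℂ := Complex.exp (2 * Real.pi * Complex.I / (j + 1 : ℕ)) with hζ
    have hprim : IsPrimitiveRoot ζ (j + 1) := Complex.isPrimitiveRoot_exp (j + 1) (by omega)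
    have hz : aeval ζ (∑ i ∈ Finset.range (j + 1), X ^ i : ℝ[X]) = 0 := by
      simp only [map_sum, map_pow, aeval_X]
      exact hprim.geom_sum_eq_zero (by omega)
    have him := h ζ hz
    have e : ζ = Complex.exp (((2 * Real.pi / (j + 1 : ℕ) : ℝ) : ℂ) * Complex.I) := by
      rw [hζ]; congr 1; push_cast; ring
    rw [e, Complex.exp_ofReal_mul_I_im] at him
    have hpos : 0 < Real.sin (2 * Real.pi / (j + 1 : ℕ)) := by
      apply Real.sin_pos_of_pos_of_lt_pi
      · positivity
      · rw [div_lt_iff₀ (by positivity)]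
        have : (3 : ℝ) ≤ ((j + 1 : ℕ) : ℝ) := by exact_mod_cast (by omega : 3 ≤ j + 1)
        nlinarith [Real.pi_pos]
    linarith

lemma sum_P_eq {j : ℕ} (hj : 1 ≤ j) (n : ℕ) (hn : n ≤ j) :
    P j n = ∑ i ∈ Finset.range (n + 1), X ^ i := by
  simp [P, hn]

lemma ind_notMem {j : ℕ} (hj : 2 ≤ j) : ind j ∉ MS (P j) := by
  intro h
  have h1 := h j (fun k => if k = j then 1 else if k = j - 1 then -1 else 0) ?_
  · have e : ∑ k ∈ Finset.range (j + 1),
        C ((if k = j then (1 : ℝ) else if k = j - 1 then -1 else 0) * ind j k) * P j k =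
        ∑ i ∈ Finset.range (j + 1), X ^ i := by
      rw [Finset.sum_eq_single j]
      · simp [ind, P]
      · intro b _ hb
        simp [ind, hb]
      · intro h
        exact absurd (Finset.mem_range.2 (by omega)) h
    rw [e] at h1
    exact geom_nonreal hj h1
  · have e : ∑ k ∈ Finset.range (j + 1),
        C (if k = j then (1 : ℝ) else if k = j - 1 then -1 else 0) * P j k = X ^ j := by
      rw [Finset.sum_range_succ]
      obtain ⟨m, rfl⟩ : ∃ m, j = m + 1 := ⟨j - 1, by omega⟩
      rw [Finset.sum_range_succ, Finset.sum_eq_zero]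
      · rw [sum_P_eq (by omega) _ le_rfl, sum_P_eq (by omega) m (by omega)]
        rw [Finset.sum_range_succ _ (m + 1)]
        simp
      · intro k hk
        have := Finset.mem_range.1 hk
        simp [show k ≠ m + 1 by omega, show k ≠ m by omega]
    rw [e]
    right
    intro z hz
    rw [map_pow, aeval_X] at hz
    have := (pow_eq_zero_iff (by omega : j ≠ 0)).1 hz
    rw [this]; simp

/-- the sequence `2^k` is a classical multiplier sequence -/
lemma geo_classical : (fun k : ℕ => (2 : ℝ) ^ k) ∈ ClassicalMS := by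
  intro n a ha
  have e : ∑ k ∈ Finset.range (n + 1), C (a k * 2 ^ k) * (X ^ k : ℝ[X]) =
      (∑ k ∈ Finset.range (n + 1), C (a k) * (X ^ k : ℝ[X])).comp (C 2 * X) := by
    rw [Polynomial.sum_comp]
    apply Finset.sum_congr rfl
    intro k _
    simp only [mul_comp, C_comp, pow_comp, X_comp, mul_pow, C_mul, C_pow]
    ring
  change OnlyRealZeros (∑ k ∈ Finset.range (n + 1), C (a k * 2 ^ k) * (X ^ k : ℝ[X]))
  rw [e]
  rcases ha with h | h
  · left
    change (∑ k ∈ Finset.range (n + 1), C (a k) * (X ^ k : ℝ[X])) = 0 at h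
    rw [h]; simp
  · right
    intro z hz
    rw [aeval_comp] at hz
    have := h _ hz
    simp only [map_mul, aeval_C, aeval_X, Complex.coe_algebraMap, Complex.im_ofReal_mul] at this
    linarith

lemma quad_nonreal {a b c : ℝ} (ha : a ≠ 0) (hd : b ^ 2 - 4 * a * c < 0) :
    ¬ OnlyRealZeros (C a * X ^ 2 + C b * X + C c) := by
  rintro (h | h)
  · apply ha
    have := congrArg (fun p : ℝ[X] => p.coeff 2) h
    simpa [coeff_X, coeff_C] using this
  · have hdeg : (C a * X ^ 2 + C b * X + C c : ℝ[X]).degree ≠ 0 := by
      rw [degree_quadratic ha]; norm_num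
    obtain ⟨z, hz⟩ := IsAlgClosed.exists_aeval_eq_zero ℂ _ hdeg
    have him := h z hz
    have hre : z = (z.re : ℂ) := Complex.ext (by simp) (by simp [him])
    rw [hre] at hz
    simp only [map_add, map_mul, aeval_C, map_pow, aeval_X, Complex.coe_algebraMap] at hz
    have h2 : a * z.re ^ 2 + b * z.re + c = 0 := by exact_mod_cast hz
    have h3 : (2 * a * z.re + b) ^ 2 = b ^ 2 - 4 * a * c := by linear_combination 4 * a * h2
    nlinarith [sq_nonneg (2 * a * z.re + b)]

lemma geo_notMem {j : ℕ} (hj : 1 ≤ j) : (fun k : ℕ => (2 : ℝ) ^ k) ∉ MS (P j) := by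
  intro h
  rcases Nat.lt_or_ge 1 j with h2 | h2
  · -- j ≥ 2, test polynomial x²
    have p0 : P j 0 = 1 := by simp [P]
    have p1 : P j 1 = 1 + X := by simp [P, hj, Finset.sum_range_succ]
    have p2 : P j 2 = 1 + X + X ^ 2 := by
      simp [P, show 2 ≤ j by omega, Finset.sum_range_succ]
    have h1 := h 2 (fun k => if k = 2 then 1 else if k = 1 then -1 else 0) ?_
    · apply quad_nonreal (a := 4) (b := 2) (c := 2) (by norm_num) (by norm_num)
      convert h1 using 1
      simp only [Finset.sum_range_succ, Finset.sum_range_zero, p0, p1, p2]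
      norm_num
      rw [show (C (4 : ℝ) : ℝ[X]) = 4 from map_ofNat C 4, show (C (2 : ℝ) : ℝ[X]) = 2 from map_ofNat C 2]
      ring
    · have e : ∑ k ∈ Finset.range (2 + 1),
          C (if k = 2 then (1 : ℝ) else if k = 1 then -1 else 0) * P j k = X ^ 2 := by
        simp only [Finset.sum_range_succ, Finset.sum_range_zero, p0, p1, p2]
        norm_num
        ring
      rw [e]
      right
      intro z hz
      rw [map_pow, aeval_X] at hz
      have := (pow_eq_zero_iff (two_ne_zero)).1 hz
      rw [this]; simp
  · -- j = 1, test polynomial (x + 1)²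
    obtain rfl : j = 1 := le_antisymm h2 hj
    have p0 : P 1 0 = 1 := by simp [P]
    have p1 : P 1 1 = 1 + X := by simp [P, Finset.sum_range_succ]
    have p2 : P 1 2 = X ^ 2 := by simp [P]
    have h1 := h 2 (fun k => if k = 2 then 1 else if k = 1 then 2 else -1) ?_
    · apply quad_nonreal (a := 4) (b := 4) (c := 3) (by norm_num) (by norm_num)
      convert h1 using 1
      simp only [Finset.sum_range_succ, Finset.sum_range_zero, p0, p1, p2]
      norm_num
      rw [show (C (4 : ℝ) : ℝ[X]) = 4 from map_ofNat C 4, show (C (3 : ℝ) : ℝ[X]) = 3 from map_ofNat C 3]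
      ring
    · have e : ∑ k ∈ Finset.range (2 + 1),
          C (if k = 2 then (1 : ℝ) else if k = 1 then 2 else -1) * P 1 k = (X + 1) ^ 2 := by
        simp only [Finset.sum_range_succ, Finset.sum_range_zero, p0, p1, p2]
        norm_num
        rw [show (C (2 : ℝ) : ℝ[X]) = 2 from map_ofNat C 2]
        ring
      rw [e]
      right
      intro z hz
      simp only [map_pow, map_add, aeval_X, map_one] at hz
      have := (pow_eq_zero_iff (two_ne_zero)).1 hz
      have hz2 : z = -1 := by linear_combination this
      rw [hz2]; simp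

/-- The collection `{P_j}` consists of simple sets with pairwise different sets of multiplier
sequences, whose union is a proper subset of the classical multiplier sequences. -/
theorem result : (∀ j, 1 ≤ j → IsSimpleSet (P j)) ∧
    (∀ i j, 1 ≤ i → 1 ≤ j → i ≠ j → symmDiff (MS (P i)) (MS (P j)) ≠ ∅) ∧
    (⋃ j ∈ Set.Ici 1, MS (P j)) ⊂ ClassicalMS := by
  refine ⟨fun j _ => P_simple j, ?_, ?_⟩
  · have key : ∀ i j, 1 ≤ i → i < j → symmDiff (MS (P i)) (MS (P j)) ≠ ∅ := by
      intro i j hi hij hempty
      have h1 : ind j ∈ symmDiff (MS (P i)) (MS (P j)) :=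
        Or.inl ⟨ind_mem hij, ind_notMem (by omega)⟩
      rw [hempty] at h1
      exact h1
    intro i j hi hj hij
    rcases lt_or_gt_of_ne hij with h | h
    · exact key i j hi h
    · rw [symmDiff_comm]
      exact key j i hj h
  · rw [Set.ssubset_iff_of_subset]
    · refine ⟨fun k => 2 ^ k, geo_classical, ?_⟩
      simp only [Set.mem_iUnion, not_exists]
      intro j hj
      exact geo_notMem hj
    · apply Set.iUnion₂_subset
      intro j _
      exact ms_subset_classical (P_simple j)

end

end Pool.Agent.Results.MP_5f9057_an.DistinctFamily
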